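import Mathlib

/-!
Acylindrically hyperbolic groups, in the form (AH1) of Osin's definition: a Cayley graph that is
hyperbolic, has more than two boundary points, and on which the group acts acylindrically.
-/

namespace Pool.Agent.MP_646035_al

open Filter

/-- The distance from `g` to `h` in the Cayley graph for the (possibly infinite) set `X`. -/
noncomputable def wdist {G : Type*} [Group G] (X : Set G) (g h : G) : ℝ :=
  (sInf {n | ∃ w : List G, w.length = n ∧ (∀ x ∈ w, x ∈ X ∨ x⁻¹ ∈ X) ∧ g * w.prod = h} : ℕ)

/-- The Gromov product of `g` and `h` with base point `o`. -/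
noncomputable def gromov {G : Type*} [Group G] (X : Set G) (o g h : G) : ℝ :=
  (wdist X o g + wdist X o h - wdist X g h) / 2

/-- For some generating set `X` the Cayley graph is hyperbolic, its boundary has three different
points (classes of sequences that converge at infinity), and the action by left multiplication is
acylindrical. -/
def AcylHyp (G : Type*) [Group G] : Prop :=
  ∃ X : Set G, Subgroup.closure X = ⊤ ∧
    (∃ δ : ℝ, ∀ o a b c : G, min (gromov X o a b) (gromov X o b c) - δ ≤ gromov X o a c) ∧
    (∃ u : Fin 3 → ℕ → G, ∀ i j,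
      Tendsto (fun p : ℕ × ℕ => gromov X 1 (u i p.1) (u j p.2)) atTop atTop ↔ i = j) ∧
    ∀ ε : ℝ, ∃ (R : ℝ) (N : ℕ), ∀ a b : G, R ≤ wdist X a b →
      {g : G | wdist X a (g * a) ≤ ε ∧ wdist X b (g * b) ≤ ε}.encard ≤ N

end Pool.Agent.MP_646035_al
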