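import Mathlib

/-!
Systems of curves with intersection numbers: the axioms.
-/

namespace Pool.Agent.MP_646035_al.H71

variable {C : Type*} (i : C → C → ℕ)

/-- the curves disjoint from all members of `A` -/
def perp (A : Set C) : Set C := {b | ∀ a ∈ A, i a b = 0}

/-- closed sets of curves (subsurfaces) -/
def Clo (W : Set C) : Prop := perp i (perp i W) ⊆ W

/-- the boundary curves -/
def bdy (W : Set C) : Set C := W ∩ perp i W

/-- multicurves -/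
def Mc (P : Set C) : Prop := ∀ a ∈ P, ∀ b ∈ P, i a b = 0

/-- crossing curves of `W` -/
def Crs (W : Set C) (a b : C) : Prop := a ∈ W ∧ b ∈ W ∧ i a b ≠ 0

/-- connected non-annular subsurfaces -/
structure Con (W : Set C) : Prop where
  clo : Clo i W
  con : ∀ a ∈ W \ perp i W, ∀ b ∈ W \ perp i W, Relation.ReflTransGen (Crs i W) a b
  gen : W ⊆ perp i (perp i (W \ perp i W))

/-- `Pr y c` : the curve `c` is a surgery of an arc of `y` in `W`. -/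
structure IsPr (C0 : ℕ) (W : Set C) (Pr : C → C → Prop) : Prop where
  ex : ∀ y ∉ perp i W, ∃ c, Pr y c
  mem : ∀ y c, Pr y c → c ∈ W \ perp i W
  dis : ∀ y c, Pr y c → ∀ u ∈ W, i u y = 0 → i u c = 0
  le : ∀ y c, Pr y c → i c y = 0 ∨ ∃ δ ∈ bdy i W, i c y ≤ C0 * i δ y
  self : ∀ y c, Pr y c → y ∈ W → c = y
  diam : ∀ y c c', Pr y c → Pr y c' → i c c' ≤ C0
  near : ∀ y ∉ perp i W, ∀ y' ∉ perp i W, ∀ n,
    (i y y' ≤ n ∨ ∃ δ ∈ bdy i W, i y y' ≤ n * i δ y') →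
    ∃ c c', Pr y c ∧ Pr y' c' ∧ i c c' ≤ C0 * (n + 1)

/-- `tw δ a b` : the relative twisting of `a` and `b` about `δ`. -/
structure IsTw (C0 : ℕ) (tw : C → C → C → ℕ) : Prop where
  symm : ∀ δ a b, tw δ a b = tw δ b a
  tri : ∀ δ a b c, i δ a ≠ 0 → i δ b ≠ 0 → i δ c ≠ 0 → tw δ a c ≤ tw δ a b + tw δ b c + C0
  le : ∀ δ a b, i δ a ≠ 0 → i δ b ≠ 0 → tw δ a b * i δ b ≤ i a b + C0 * i δ b
  dt : ∀ M k, ∃ N, ∀ P A : Finset C, Mc i P → perp i P ⊆ P → (∀ a ∈ A, a ∉ P) →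
    (∀ a ∈ A, ∀ δ ∈ P, i δ a ≤ M) →
    (∀ δ ∈ P, ∀ a ∈ A, ∀ b ∈ A, i δ a ≠ 0 → i δ b ≠ 0 → tw δ a b ≤ k) → A.card ≤ N

/-- The axioms on the curves. -/
structure Ax (ξ C0 : ℕ) : Prop where
  symm : ∀ a b, i a b = i b a
  self : ∀ a, i a a = 0
  xi : ∀ P : Finset C, Mc i P → P.card ≤ ξ
  ni : ∀ P : Finset C, Mc i P → ∀ a ∈ perp i P, a ∉ P → ∃ y ∈ perp i P, i a y ≠ 0
  inn : ∀ W, Clo i W → ∀ b ∈ perp i (bdy i W), b ∈ W ∨ b ∈ perp i W
  fil : ∀ A : Finset C, ∀ δ ∈ perp i A, δ ∈ perp i (perp i A) → ∀ x, i δ x ≤ 2 * ∑ a ∈ A, i a x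
  con : ∀ a b, Relation.ReflTransGen (fun a b => i a b ≠ 0) a b
  pr : ∀ W, Con i W → ∃ Pr, IsPr i C0 W Pr
  tw : ∃ tw, IsTw i C0 tw

/-- The axioms on the group. -/
structure AxG (G : Type*) [Group G] [MulAction G C] : Prop where
  inv : ∀ (g : G) a b, i (g • a) (g • b) = i a b
  orb : ∀ a : C, (MulAction.orbit G a).Infinite
  inf : ∃ a : C, (MulAction.stabilizer G a : Set G).Infinite
  st : ∃ N, ∀ H : Subgroup G, (∀ a : C, (MulAction.orbit H a).Finite) →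
    ∀ F : Finset G, (∀ g ∈ F, g ∈ H) → F.card ≤ N

/-- paths with at most `n` steps -/
inductive Pth (r : C → C → Prop) : ℕ → C → C → Prop
  | nil (n : ℕ) (a : C) : Pth r n a a
  | cons {n : ℕ} {a b c : C} : r a b → Pth r n b c → Pth r (n + 1) a c

/-- `d` is the path metric of the graph whose edges are the pairs with `i ≤ K`. -/
def IsDist (K : ℕ) (d : C → C → ℕ) : Prop :=
  ∀ n a b, d a b ≤ n ↔ Pth (fun a b => i a b ≤ K) n a b

end Pool.Agent.MP_646035_al.H71
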